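import Pool.Agent.H97.LA.Targets

/-!
Operators do not depend on the names of the rows (board `la_modules`, row `APP`).
-/

set_option autoImplicit false

open Finset Pool.Agent.H60.SYM Pool.Agent.H42.XS Pool.Agent.H97.LA

namespace Pool.Agent.H78.LA

/-- two numberings of the rows -/
theorem fn_equiv {V : Type} (o : Op V) {J : Type} {n : ℕ} (e e' : J ≃ Fin n)
    (N : ℕ → J → J → o.K) :
    o.fn n (fun l a b => N l (e'.symm a) (e'.symm b)) =
      o.fn n (fun l a b => N l (e.symm a) (e.symm b)) := by
  set τ : Fin n ≃ Fin n := e'.symm.trans e with hτ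
  have hD : ((1 : Matrix (Fin n) (Fin n) o.K).submatrix τ id) *
      ((1 : Matrix (Fin n) (Fin n) o.K).submatrix id τ) = 1 := by
    have h := Matrix.submatrix_mul_equiv (1 : Matrix (Fin n) (Fin n) o.K)
      (1 : Matrix (Fin n) (Fin n) o.K) (τ : Fin n → Fin n) (Equiv.refl (Fin n)) (τ : Fin n → Fin n)
    rw [one_mul, Matrix.submatrix_one_equiv] at h
    exact h
  have hD' : ((1 : Matrix (Fin n) (Fin n) o.K).submatrix id τ) *
      ((1 : Matrix (Fin n) (Fin n) o.K).submatrix τ id) = 1 := by
    have h := Matrix.submatrix_mul_equiv (1 : Matrix (Fin n) (Fin n) o.K)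
      (1 : Matrix (Fin n) (Fin n) o.K) (id : Fin n → Fin n) τ (id : Fin n → Fin n)
    rw [one_mul, Matrix.submatrix_id_id] at h
    exact h
  refine o.inv n _ _ _ _ hD hD' fun l => ?_
  set A : Matrix (Fin n) (Fin n) o.K := fun a b => N l (e.symm a) (e.symm b) with hA
  have h1 : ((1 : Matrix (Fin n) (Fin n) o.K).submatrix τ id) * A = A.submatrix τ id := by
    have h := Matrix.submatrix_mul_equiv (1 : Matrix (Fin n) (Fin n) o.K) A
      (τ : Fin n → Fin n) (Equiv.refl (Fin n)) (id : Fin n → Fin n)
    rw [one_mul] at h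
    exact h
  have h2 : (A.submatrix τ id) * ((1 : Matrix (Fin n) (Fin n) o.K).submatrix id τ) =
      A.submatrix τ τ := by
    have h := Matrix.submatrix_mul_equiv A (1 : Matrix (Fin n) (Fin n) o.K)
      (τ : Fin n → Fin n) (Equiv.refl (Fin n)) (τ : Fin n → Fin n)
    rw [mul_one] at h
    exact h
  rw [h1, h2]
  funext a b
  show N l (e'.symm a) (e'.symm b) = N l (e.symm (τ a)) (e.symm (τ b))
  rw [hτ]
  simp

theorem app_eq {V : Type} (o : Op V) {J : Type} [Fintype J] {n : ℕ} (hn : Fintype.card J = n)
    (e : J ≃ Fin n) (M : ℕ → J → J → V) :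
    o.fn n (fun l a b => o.code l (M l (e.symm a) (e.symm b))) = o.app J M := by
  subst hn
  exact fn_equiv o (Fintype.equivFin J) e fun l i j => o.code l (M l i j)

theorem pf_APP : T_APP := by
  intro V o J J' _ _ _
  refine ⟨fun σ M M' h => ?_, fun M M' D D' h1 h2 h => ?_⟩
  · have hc : Fintype.card J = Fintype.card J' := Fintype.card_congr σ
    rw [← app_eq o hc (σ.trans (Fintype.equivFin J')) M]
    unfold Op.app
    congr 1
    funext l a b
    have := h l (σ.symm ((Fintype.equivFin J').symm a)) (σ.symm ((Fintype.equivFin J').symm b))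
    rw [Equiv.apply_symm_apply, Equiv.apply_symm_apply] at this
    rw [this]
    rfl
  · unfold Op.app
    set e := Fintype.equivFin J with he
    have hD : (D.submatrix e.symm e.symm) * (D'.submatrix e.symm e.symm) = 1 := by
      rw [Matrix.submatrix_mul_equiv, h1, Matrix.submatrix_one_equiv]
    have hD' : (D'.submatrix e.symm e.symm) * (D.submatrix e.symm e.symm) = 1 := by
      rw [Matrix.submatrix_mul_equiv, h2, Matrix.submatrix_one_equiv]
    refine o.inv _ _ _ _ _ hD hD' fun l => ?_
    have h3 : (Matrix.of fun i j => o.code l (M' l i j)).submatrix e.symm e.symm =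
        (D.submatrix e.symm e.symm) *
          ((Matrix.of fun i j => o.code l (M l i j)).submatrix e.symm e.symm) *
          (D'.submatrix e.symm e.symm) := by
      rw [Matrix.submatrix_mul_equiv, Matrix.submatrix_mul_equiv, h l]
    exact h3

end Pool.Agent.H78.LA
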